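import Pool.Agent.Helper34_OMP.LeadB

/-!
# OMP, module LEADH: the vector field
-/

set_option autoImplicit false

namespace Pool.Agent.Helper32_OMP.H34

open Finset MvPolynomial Pool.Agent.Helper6_Mono

section

variable {σ : Type} {K : Type} [Field K] [Algebra ℂ K] [Algebra (MvPolynomial σ ℂ) K]
  [IsScalarTower ℂ (MvPolynomial σ ℂ) K] [IsFractionRing (MvPolynomial σ ℂ) K]

/-- the operators `d_i` on functions on `ℤ` -/
noncomputable def dop (K : Type) [Field K] [Algebra ℂ K] [Algebra (MvPolynomial σ ℂ) K]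
    [IsScalarTower ℂ (MvPolynomial σ ℂ) K] [IsFractionRing (MvPolynomial σ ℂ) K]
    (f0 : MvPolynomial σ ℂ) (β : ℂ) (i : σ) : Module.End ℂ (ℤ → K) where
  toFun w := fun e => DD K f0 β i (w (e + 1))
  map_add' w v := funext fun e => map_add _ _ _
  map_smul' c w := funext fun e => map_smul _ _ _

theorem dop_apply (f0 : MvPolynomial σ ℂ) (β : ℂ) (i : σ) (w : ℤ → K) (e : ℤ) :
    dop K f0 β i w e = DD K f0 β i (w (e + 1)) := rfl

/-- the action of the polynomials -/
noncomputable def actH (K : Type) [Field K] [Algebra ℂ K] [Algebra (MvPolynomial σ ℂ) K]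
    (p : σ → ℂ) : MvPolynomial σ ℂ →ₐ[ℂ] Module.End ℂ (ℤ → K) :=
  (paH (K := K)).comp (tp K p)

theorem actH_apply (p : σ → ℂ) (h : MvPolynomial σ ℂ) (w : ℤ → K) :
    actH K p h w = pa (tp K p h) w := rfl

theorem leib (f0 : MvPolynomial σ ℂ) (β : ℂ) (p : σ → ℂ) (i j : σ) (b : ℤ → K) :
    dop K f0 β i (actH K p (X j) b) =
      actH K p (pderiv i (X j)) b + actH K p (X j) (dop K f0 β i b) := by
  classical
  funext e
  rw [Pi.add_apply, dop_apply, actH_apply, actH_apply, actH_apply, pa_tp_X, pa_tp_X, dop_apply,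
    dop_apply, map_add, sub_add_cancel, add_sub_cancel_right]
  have h1 : DD K f0 β i (algebraMap ℂ K (p j) * b (e + 1)) =
      algebraMap ℂ K (p j) * DD K f0 β i (b (e + 1)) := by
    rw [← Algebra.smul_def, map_smul, Algebra.smul_def]
  have h2 : pa (tp K p (pderiv i (X j))) b e = pD K i (algebraMap (MvPolynomial σ ℂ) K (X j)) * b e := by
    rw [pD_algebraMap, pderiv_X]
    by_cases hij : i = j
    · subst hij
      rw [Pi.single_eq_same, map_one, map_one, one_mul, ← Polynomial.monomial_zero_one, pa_monomial]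
      simp
    · rw [Pi.single_eq_of_ne (fun h => hij h.symm), map_zero, map_zero, zero_mul, pa_eq,
        Polynomial.sum_zero_index]
  rw [h1, h2, DD_mul]
  ring

end

/-- MODULE LEADH -/
theorem leadh : LeadhStmt := by
  intro σ _ f p d f0 hd hlow hf0 hne β hβ hb
  classical
  let K : Type := FractionRing (MvPolynomial σ ℂ)
  set F0 : K := algebraMap (MvPolynomial σ ℂ) K f0 with hF0
  have hinj : Function.Injective (algebraMap (MvPolynomial σ ℂ) K) :=
    IsFractionRing.injective (MvPolynomial σ ℂ) K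
  have hF0ne : F0 ≠ 0 := by
    intro h
    apply hne
    apply hinj
    rw [map_zero]
    exact h
  have hhom : f0.IsHomogeneous d := by
    rw [hf0]; exact homogeneousComponent_isHomogeneous d _
  -- the power series `P`
  let P : PowerSeries K := PowerSeries.mk fun i =>
    algebraMap (MvPolynomial σ ℂ) K (homogeneousComponent (d + i) (tra p f)) * F0⁻¹
  have hP1 : PowerSeries.constantCoeff P = 1 := by
    rw [← PowerSeries.coeff_zero_eq_constantCoeff_apply, PowerSeries.coeff_mk, add_zero, ← hf0]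
    exact mul_inv_cancel₀ hF0ne
  have hfP : ((tp K p f : Polynomial K) : PowerSeries K) =
      PowerSeries.C F0 * (PowerSeries.X ^ d * P) := by
    ext j
    rw [Polynomial.coeff_coe, tp_apply, coeff_tp0, PowerSeries.coeff_C_mul,
      PowerSeries.coeff_X_pow_mul']
    split_ifs with h
    · rw [PowerSeries.coeff_mk, Nat.add_sub_cancel' h]
      rw [mul_comm, mul_assoc, inv_mul_cancel₀ hF0ne, mul_one]
    · rw [hlow j (not_le.1 h), map_zero, mul_zero]
  obtain ⟨hpw0, hpw1, hpw2⟩ := bpow_spec P hP1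
  -- the chain
  let psi : ℕ → ℤ → K := fun n e => F0⁻¹ ^ n * ext (pwS P (β - n)) (e + d * n)
  have hpsi : ∀ n e, psi n e = F0⁻¹ ^ n * ext (pwS P (β - n)) (e + d * n) := fun n e => rfl
  have hact : ∀ (q : Polynomial K) (n : ℕ) (e : ℤ), pa q (psi (n + 1)) e =
      F0⁻¹ ^ (n + 1) * ext ((q : PowerSeries K) * pwS P (β - n - 1)) (e + d * n + d) := by
    intro q n e
    have h1 : psi (n + 1) = fun e => F0⁻¹ ^ (n + 1) * ext (pwS P (β - n - 1)) (e + (d * n + d)) := by
      funext e
      rw [hpsi]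
      congr 2
      · congr 1
        push_cast
        ring
    rw [h1, pa_shift, pa_ext]
    congr 2
    ring
  have hmul : ∀ n, actH K p f (psi (n + 1)) = psi n := by
    intro n
    funext e
    have h3 : P * pwS P (β - n - 1) = pwS P (β - n) := by
      rw [hpw1, sub_add_cancel]
    rw [actH_apply, hact, hfP, mul_assoc, mul_assoc, ext_C_mul, h3, ext_X_pow_mul,
      add_sub_cancel_right, hpsi, pow_succ]
    calc F0⁻¹ ^ n * F0⁻¹ * (F0 * ext (pwS P (β - n)) (e + d * n)) =
        F0⁻¹ ^ n * (F0⁻¹ * F0) * ext (pwS P (β - n)) (e + d * n) := by ring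
      _ = _ := by rw [inv_mul_cancel₀ hF0ne, mul_one]
  have hd_psi : ∀ i, ∀ n : ℕ, dop K f0 β i (psi n) =
      (β - (n : ℂ)) • actH K p (pderiv i f) (psi (n + 1)) := by
    intro i n
    funext e
    set Y : PowerSeries K := pwS P (β - n) with hY
    set Y' : PowerSeries K := pwS P (β - n - 1) with hY'
    set G : K := algebraMap (MvPolynomial σ ℂ) K (pderiv i f0) with hG
    have hDF : pD K i F0 = G := pD_algebraMap i f0
    have h3 : P * Y' = Y := by
      rw [hY', hpw1, sub_add_cancel]
    have h4 : mapD (pD K i) Y = (β - n) • (mapD (pD K i) P * Y') := hpw2 (pD K i) (β - n)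
    -- right side
    have h5 : ext ((tp K p (pderiv i f) : PowerSeries K) * Y') (e + d * n + d) =
        G * ext Y (e + d * n + 1) + F0 * ext (mapD (pD K i) P * Y') (e + d * n + 1) := by
      have e1 : PowerSeries.X ^ 1 * ((tp K p (pderiv i f) : PowerSeries K) * Y') =
          PowerSeries.X ^ d * (PowerSeries.C G * Y + PowerSeries.C F0 * (mapD (pD K i) P * Y')) := by
        rw [pow_one, ← mul_assoc, X_mul_tp, hfP, mapD_mul, mapD_C, mapD_mul, hDF, ← h3]
        have e2 : mapD (pD K i) (PowerSeries.X ^ d : PowerSeries K) = 0 := by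
          have e3 : ∀ k : ℕ, mapD (pD K i) (PowerSeries.X ^ k : PowerSeries K) = 0 := by
            intro k
            induction k with
            | zero => rw [pow_zero, mapD_one]
            | succ k ih => rw [pow_succ, mapD_mul, ih, mapD_X]; ring
          exact e3 d
        rw [e2]
        ring
      have e4 := congrArg (fun Z => ext Z (e + d * n + d + 1)) e1
      rw [ext_X_pow_mul, ext_X_pow_mul, ext_add, ext_C_mul, ext_C_mul] at e4
      have e5 : e + (d : ℤ) * n + d + 1 - ((1 : ℕ) : ℤ) = e + d * n + d := by push_cast; ring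
      have e6 : e + (d : ℤ) * n + d + 1 - d = e + d * n + 1 := by ring
      rw [e5, e6] at e4
      exact e4
    -- left side
    have h6 : DD K f0 β i (F0⁻¹ ^ n * ext Y (e + d * n + 1)) =
        F0⁻¹ ^ n * ((β - n) • (G * F0⁻¹ * ext Y (e + d * n + 1)) +
          pD K i (ext Y (e + d * n + 1))) := by
      have e1 : pD K i (F0⁻¹ ^ n) = -((n : K) * (G * F0⁻¹) * F0⁻¹ ^ n) := by
        have e2 : pD K i (F0⁻¹) = -(G * F0⁻¹ * F0⁻¹) := by
          have e3 : pD K i (F0 * F0⁻¹) = 0 := by
            rw [mul_inv_cancel₀ hF0ne]; exact Derivation.map_one_eq_zero _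
          rw [Derivation.leibniz, smul_eq_mul, smul_eq_mul, hDF] at e3
          have e4 : F0⁻¹ * (F0 * pD K i F0⁻¹ + F0⁻¹ * G) = 0 := by rw [e3, mul_zero]
          have e5 : F0⁻¹ * (F0 * pD K i F0⁻¹ + F0⁻¹ * G) =
              (F0⁻¹ * F0) * pD K i F0⁻¹ + G * F0⁻¹ * F0⁻¹ := by ring
          rw [e5, inv_mul_cancel₀ hF0ne, one_mul] at e4
          exact eq_neg_of_add_eq_zero_left e4
        rw [Derivation.leibniz_pow, e2, nsmul_eq_mul, smul_eq_mul]
        rcases n with _ | n
        · simp
        · rw [Nat.add_sub_cancel]; push_cast; ring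
      rw [DD_apply, Derivation.leibniz, smul_eq_mul, smul_eq_mul, e1]
      simp only [Algebra.smul_def, map_sub, map_natCast]
      rw [div_eq_mul_inv]
      ring
    rw [dop_apply, Pi.smul_apply, actH_apply, hact, h5, hpsi]
    have h7 : e + 1 + (d : ℤ) * n = e + d * n + 1 := by ring
    rw [h7, h6, ← ext_mapD, h4, ext_smul]
    simp only [Algebra.smul_def]
    rw [pow_succ]
    have h8 : F0⁻¹ * F0 = 1 := inv_mul_cancel₀ hF0ne
    linear_combination (-(algebraMap ℂ K (β - n)) * F0⁻¹ ^ n *
      ext (mapD (pD K i) P * Y') (e + d * n + 1)) * h8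
  -- the coefficients are homogeneous
  let R : ℕ → Submodule ℂ K := fun n => RR K hhom hd n
  have hR : ∀ i j u v, u ∈ R i → v ∈ R j → u * v ∈ R (i + j) := by
    intro i j u v hu hv
    have := RR_mul hhom hd hu hv
    change u * v ∈ RR K hhom hd ((i + j : ℕ) : ℤ)
    push_cast
    exact this
  have hR1 : (1 : K) ∈ R 0 := RR_one hhom hd
  have hPR : GrIn R P := by
    intro n
    rw [PowerSeries.coeff_mk]
    have h1 := RR_mul hhom hd (RR_hom (K := K) hhom hd
      (homogeneousComponent_isHomogeneous (d + n) (tra p f))) (RR_inv hhom hd hF0ne)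
    have h2 : ((d + n : ℕ) : ℤ) + -(d : ℤ) = n := by push_cast; ring
    rwa [h2] at h1
  have hpwR : ∀ c, GrIn R (pwS P c) := fun c => GrIn.pwS hR hR1 hP1 hPR c
  -- the subspace
  let N : Submodule ℂ (ℤ → K) := Submodule.pi Set.univ (fun e => Qe K hhom hd β e)
  have hN : ∀ w : ℤ → K, w ∈ N ↔ ∀ e, w e ∈ Qe K hhom hd β e := by
    intro w
    rw [Submodule.mem_pi]
    simp
  have hkey := bfun_mem f β (actH K p) (dop K f0 β) (leib f0 β p) psi hmul hd_psi N
    (by
      intro i b hb
      rw [hN] at hb ⊢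
      intro e
      rw [actH_apply, pa_tp_X]
      refine Submodule.add_mem _ ?_ ?_
      · rw [← Algebra.smul_def]
        exact Submodule.smul_mem _ _ (hb e)
      · exact Qe_X hhom hd hF0ne β (hb (e - 1)) i)
    (by
      intro i b hb
      rw [hN] at hb ⊢
      intro e
      rw [dop_apply]
      exact Qe_DD hhom hd hF0ne β (hb (e + 1)) i)
    (by
      rw [hN]
      intro e
      have h0 : psi 0 = fun e => 1 * ext (pwS P β) (e + 0) := by
        funext e
        rw [hpsi]
        simp
      rw [actH_apply, h0, pa_shift, pa_ext, hfP, mul_assoc, mul_assoc, ext_C_mul, hpw1,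
        ext_X_pow_mul, one_mul, add_zero]
      by_cases he : (d : ℤ) ≤ e
      · obtain ⟨j, hj⟩ : ∃ j : ℕ, e = d + j := ⟨(e - d).toNat, by omega⟩
        subst hj
        rw [Qe_ge hhom hd β (by omega), add_sub_cancel_left, ext_natCast]
        exact RR_mul hhom hd (RR_hom (K := K) hhom hd hhom) (hpwR (β + 1) j)
      · rw [ext_neg _ (by omega), mul_zero]
        exact Submodule.zero_mem _)
  rw [hN] at hkey
  have h1 := hkey 0
  have h2 : psi 0 0 = 1 := by
    rw [hpsi]
    have e1 : (0 : ℤ) + d * ((0 : ℕ) : ℤ) = ((0 : ℕ) : ℤ) := by simp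
    rw [pow_zero, one_mul, e1, ext_natCast, PowerSeries.coeff_zero_eq_constantCoeff_apply, hpw0]
  rw [Pi.smul_apply, h2] at h1
  have h3 : (1 : K) ∈ Qe K hhom hd β 0 := by
    have := Submodule.smul_mem _ ((bfun f).eval β)⁻¹ h1
    rwa [smul_smul, inv_mul_cancel₀ hb, one_smul] at this
  have h4 : (0 : ℤ) = 1 - ((1 : ℕ) : ℤ) := by simp
  rw [h4, Qe_le] at h3
  obtain ⟨h, hh, hsum⟩ := h3
  choose Nl ml Hl hHl hml haH using hh
  let N0 : ℕ := ∑ l, Nl l
  have hle : ∀ l, Nl l ≤ N0 := fun l => Finset.single_le_sum (fun _ _ => Nat.zero_le _)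
    (Finset.mem_univ l)
  obtain ⟨H, hHdef⟩ : ∃ H : σ → MvPolynomial σ ℂ, ∀ l, H l = Hl l * f0 ^ (N0 - Nl l) :=
    ⟨fun l => Hl l * f0 ^ (N0 - Nl l), fun l => rfl⟩
  have hH : ∀ l, algebraMap (MvPolynomial σ ℂ) K (H l) = h l * F0 ^ N0 := by
    intro l
    rw [hHdef, map_mul, haH l, map_pow, mul_assoc, ← pow_add, Nat.add_sub_cancel' (hle l)]
  refine ⟨N0, H, ?_, ?_⟩
  · intro l
    rw [hHdef]
    have e1 := (hHl l).mul (hhom.pow (N0 - Nl l))
    have e2 : ml l + d * (N0 - Nl l) = d * N0 + 1 := by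
      have e3 := hml l
      have e4 : d * (N0 - Nl l) + d * Nl l = d * N0 := by
        rw [← Nat.mul_add, Nat.sub_add_cancel (hle l)]
      have e5 : ml l = 1 + d * Nl l := by exact_mod_cast e3
      omega
    rwa [e2] at e1
  · apply hinj
    have hterm : ∀ l, algebraMap (MvPolynomial σ ℂ) K (f0 * pderiv l (H l) +
        C (β - N0) * (H l * pderiv l f0)) = F0 ^ (N0 + 1) * DD K f0 β l (h l) := by
      intro l
      have e1 : algebraMap (MvPolynomial σ ℂ) K (pderiv l (H l)) = pD K l (h l * F0 ^ N0) := by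
        rw [← hH l, pD_algebraMap]
      rw [Derivation.leibniz (pD K l), Derivation.leibniz_pow (pD K l), smul_eq_mul, smul_eq_mul,
        nsmul_eq_mul, smul_eq_mul] at e1
      have hDF : pD K l F0 = algebraMap (MvPolynomial σ ℂ) K (pderiv l f0) := pD_algebraMap l f0
      rw [hDF] at e1
      rw [map_add, map_mul, map_mul, map_mul, algMap_C, e1, hH l, DD_apply, map_sub, map_natCast]
      simp only [Algebra.smul_def]
      have e2 : F0 ^ (N0 + 1) * (algebraMap (MvPolynomial σ ℂ) K (pderiv l f0) / F0) =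
          F0 ^ N0 * algebraMap (MvPolynomial σ ℂ) K (pderiv l f0) := by
        rw [pow_succ, mul_assoc, mul_div_cancel₀ _ hF0ne]
      have e3 : F0 * ((N0 : K) * F0 ^ (N0 - 1)) = (N0 : K) * F0 ^ N0 := by
        rcases N0 with _ | n
        · simp
        · rw [Nat.add_sub_cancel]; push_cast; ring
      change F0 * _ + _ = _
      linear_combination (h l * algebraMap (MvPolynomial σ ℂ) K (pderiv l f0)) * e3 -
        (algebraMap ℂ K β * h l) * e2
    have e1 : f0 * dv H + C (β - N0) * ap H f0 =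
        ∑ l, (f0 * pderiv l (H l) + C (β - N0) * (H l * pderiv l f0)) := by
      unfold dv ap
      rw [Finset.mul_sum, Finset.mul_sum, ← Finset.sum_add_distrib]
    rw [e1, map_sum, Finset.sum_congr rfl fun l _ => hterm l, ← Finset.mul_sum, ← hsum, mul_one,
      map_pow]

end Pool.Agent.Helper32_OMP.H34
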