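import Pool.Agent.Helper32_OMP.StmtB

/-!
# OMP, module BPOW: complex powers of power series with constant term `1`
-/

set_option autoImplicit false

namespace Pool.Agent.Helper32_OMP.H34

open Finset PowerSeries

section

variable {K : Type} [Field K] [Algebra ℂ K]

/-- `t d/dt` -/
noncomputable def TT (Y : PowerSeries K) : PowerSeries K :=
  PowerSeries.mk fun n => (n : K) * PowerSeries.coeff n Y

theorem coeff_TT (Y : PowerSeries K) (n : ℕ) :
    PowerSeries.coeff n (TT Y) = (n : K) * PowerSeries.coeff n Y := by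
  unfold TT; rw [PowerSeries.coeff_mk]

theorem coeff_mapD (D : Derivation ℂ K K) (Y : PowerSeries K) (n : ℕ) :
    PowerSeries.coeff n (mapD D Y) = D (PowerSeries.coeff n Y) := by
  unfold mapD; rw [PowerSeries.coeff_mk]

theorem TT_mul (Y Z : PowerSeries K) : TT (Y * Z) = TT Y * Z + Y * TT Z := by
  ext n
  rw [map_add, coeff_TT, PowerSeries.coeff_mul, PowerSeries.coeff_mul, PowerSeries.coeff_mul,
    Finset.mul_sum, ← Finset.sum_add_distrib]
  refine Finset.sum_congr rfl fun p hp => ?_
  rw [coeff_TT, coeff_TT]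
  have h1 : (n : K) = (p.1 : K) + (p.2 : K) := by
    rw [Finset.HasAntidiagonal.mem_antidiagonal] at hp
    rw [← hp]; push_cast; ring
  rw [h1]; ring

theorem mapD_mul (D : Derivation ℂ K K) (Y Z : PowerSeries K) :
    mapD D (Y * Z) = mapD D Y * Z + Y * mapD D Z := by
  ext n
  rw [map_add, coeff_mapD, PowerSeries.coeff_mul, PowerSeries.coeff_mul, PowerSeries.coeff_mul,
    map_sum, ← Finset.sum_add_distrib]
  refine Finset.sum_congr rfl fun p _ => ?_
  rw [coeff_mapD, coeff_mapD, Derivation.leibniz, smul_eq_mul, smul_eq_mul]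
  ring

theorem TT_mapD (D : Derivation ℂ K K) (Y : PowerSeries K) : TT (mapD D Y) = mapD D (TT Y) := by
  ext n
  rw [coeff_TT, coeff_mapD, coeff_mapD, coeff_TT, Derivation.leibniz, smul_eq_mul, smul_eq_mul,
    D.map_natCast, mul_zero, add_zero]

theorem TT_add (Y Z : PowerSeries K) : TT (Y + Z) = TT Y + TT Z := by
  ext n
  rw [map_add, coeff_TT, coeff_TT, coeff_TT, map_add]; ring

theorem TT_sub (Y Z : PowerSeries K) : TT (Y - Z) = TT Y - TT Z := by
  ext n
  rw [map_sub, coeff_TT, coeff_TT, coeff_TT, map_sub]; ring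

theorem TT_smul (c : ℂ) (Y : PowerSeries K) : TT (c • Y) = c • TT Y := by
  ext n
  rw [coeff_TT, PowerSeries.coeff_smul, PowerSeries.coeff_smul, coeff_TT]
  simp only [Algebra.smul_def]
  ring

theorem mapD_smul (D : Derivation ℂ K K) (c : ℂ) (Y : PowerSeries K) :
    mapD D (c • Y) = c • mapD D Y := by
  ext n
  rw [coeff_mapD, PowerSeries.coeff_smul, PowerSeries.coeff_smul, coeff_mapD, D.map_smul]

theorem TT_one : TT (1 : PowerSeries K) = 0 := by
  ext n
  rw [coeff_TT, PowerSeries.coeff_one]
  split_ifs with h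
  · rw [h]; simp
  · simp

theorem mapD_one (D : Derivation ℂ K K) : mapD D (1 : PowerSeries K) = 0 := by
  ext n
  rw [coeff_mapD, PowerSeries.coeff_one]
  split_ifs with h
  · simp
  · simp

theorem charZero_K : CharZero K := by
  have : Nontrivial K := inferInstance
  exact charZero_of_injective_algebraMap (algebraMap ℂ K).injective

/-- uniqueness of the solution of `T Y = G Y` -/
theorem TT_unique (G Z : PowerSeries K) (hG : PowerSeries.constantCoeff G = 0)
    (hZ : PowerSeries.constantCoeff Z = 0) (h : TT Z = G * Z) : Z = 0 := by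
  have hch : CharZero K := charZero_K
  ext n
  rw [map_zero]
  induction n using Nat.strong_induction_on with
  | _ n ih =>
    by_cases hn : n = 0
    · rw [hn]; simpa using hZ
    · have h1 := congrArg (PowerSeries.coeff n) h
      rw [coeff_TT, PowerSeries.coeff_mul] at h1
      rw [Finset.sum_eq_zero] at h1
      · rcases mul_eq_zero.1 h1 with h2 | h2
        · exact absurd (Nat.cast_eq_zero.1 h2) hn
        · exact h2
      · intro p hp
        rw [Finset.HasAntidiagonal.mem_antidiagonal] at hp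
        by_cases h3 : p.1 = 0
        · rw [h3, PowerSeries.coeff_zero_eq_constantCoeff_apply, hG, zero_mul]
        · rw [ih p.2 (by omega), mul_zero]

/-- the solution of `T Y = G Y` with constant term `1` -/
noncomputable def sol (G : PowerSeries K) : ℕ → K
  | 0 => 1
  | (n + 1) => (∑ j : Fin (n + 1), sol G j.1 * PowerSeries.coeff (n + 1 - j.1) G) / ((n + 1 : ℕ) : K)
decreasing_by exact j.2

theorem TT_sol (G : PowerSeries K) (hG : PowerSeries.constantCoeff G = 0) :
    TT (PowerSeries.mk (sol G)) = G * PowerSeries.mk (sol G) := by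
  have hch : CharZero K := charZero_K
  ext n
  rw [coeff_TT, mul_comm G, PowerSeries.coeff_mul, PowerSeries.coeff_mk]
  rcases n with _ | n
  · simp [hG]
  · rw [Finset.Nat.sum_antidiagonal_eq_sum_range_succ
      (fun i j => PowerSeries.coeff i (PowerSeries.mk (sol G)) * PowerSeries.coeff j G) (n + 1),
      Finset.sum_range_succ, Nat.sub_self, PowerSeries.coeff_zero_eq_constantCoeff_apply, hG,
      mul_zero, add_zero]
    conv_lhs => rw [sol]
    have hne : ((n + 1 : ℕ) : K) ≠ 0 := Nat.cast_ne_zero.2 (Nat.succ_ne_zero n)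
    rw [mul_div_cancel₀ _ hne]
    rw [Fin.sum_univ_eq_sum_range (fun j => sol G j * PowerSeries.coeff (n + 1 - j) G) (n + 1)]
    refine Finset.sum_congr rfl fun j _ => ?_
    rw [PowerSeries.coeff_mk]

/-- the power `P ^ c` -/
noncomputable def pwS (P : PowerSeries K) (c : ℂ) : PowerSeries K :=
  PowerSeries.mk (sol (c • (TT P * P⁻¹)))

theorem bpow_spec (P : PowerSeries K) (hP : PowerSeries.constantCoeff P = 1) :
    (∀ c, PowerSeries.constantCoeff (pwS P c) = 1) ∧ (∀ c, P * pwS P c = pwS P (c + 1)) ∧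
      ∀ (D : Derivation ℂ K K) (c : ℂ), mapD D (pwS P c) = c • (mapD D P * pwS P (c - 1)) := by
  have hP0 : PowerSeries.constantCoeff P ≠ 0 := by rw [hP]; exact one_ne_zero
  have hPU : P * P⁻¹ = 1 := PowerSeries.mul_inv_cancel P hP0
  set U := P⁻¹ with hU
  let G : ℂ → PowerSeries K := fun c => c • (TT P * U)
  have hTP0 : PowerSeries.constantCoeff (TT P) = 0 := by
    rw [← PowerSeries.coeff_zero_eq_constantCoeff_apply, coeff_TT]; simp
  have hG0 : ∀ c, PowerSeries.constantCoeff (G c) = 0 := by
    intro c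
    change PowerSeries.constantCoeff (c • (TT P * U)) = 0
    rw [← PowerSeries.coeff_zero_eq_constantCoeff_apply, PowerSeries.coeff_smul,
      PowerSeries.coeff_zero_eq_constantCoeff_apply, map_mul, hTP0, zero_mul, smul_zero]
  set pw : ℂ → PowerSeries K := pwS P with hpwdef
  have hpw : ∀ c, TT (pw c) = G c * pw c := fun c => TT_sol (G c) (hG0 c)
  have hpw0 : ∀ c, PowerSeries.constantCoeff (pw c) = 1 := by
    intro c
    change PowerSeries.constantCoeff (PowerSeries.mk (sol (G c))) = 1
    rw [← PowerSeries.coeff_zero_eq_constantCoeff_apply, PowerSeries.coeff_mk, sol]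
  have hmul : ∀ c, P * pw c = pw (c + 1) := by
    intro c
    have h1 : P * pw c - pw (c + 1) = 0 := by
      refine TT_unique (G (c + 1)) _ (hG0 _) ?_ ?_
      · rw [map_sub, map_mul, hP, hpw0, hpw0]; ring
      · rw [TT_sub, TT_mul, hpw, hpw, mul_sub]
        congr 1
        change TT P * pw c + P * ((c • (TT P * U)) * pw c) = ((c + 1) • (TT P * U)) * (P * pw c)
        rw [add_smul, one_smul, add_mul, smul_mul_assoc, smul_mul_assoc, mul_smul_comm]
        have e1 : P * (TT P * U * pw c) = TT P * U * (P * pw c) := by ring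
        have e2 : TT P * U * (P * pw c) = TT P * pw c := by
          calc TT P * U * (P * pw c) = (P * U) * (TT P * pw c) := by ring
            _ = TT P * pw c := by rw [hPU, one_mul]
        rw [e1, e2, add_comm]
    exact sub_eq_zero.1 h1
  refine ⟨hpw0, hmul, ?_⟩
  intro D c
  -- the derivatives of `U`
  have hTU : TT U = -(TT P * U * U) := by
    have h1 : TT (P * U) = 0 := by rw [hPU, TT_one]
    rw [TT_mul] at h1
    calc TT U = (P * U) * TT U := by rw [hPU, one_mul]
      _ = U * (TT P * U + P * TT U) - TT P * U * U := by ring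
      _ = _ := by rw [h1]; ring
  have hDU : mapD D U = -(mapD D P * U * U) := by
    have h1 : mapD D (P * U) = 0 := by rw [hPU, mapD_one]
    rw [mapD_mul] at h1
    calc mapD D U = (P * U) * mapD D U := by rw [hPU, one_mul]
      _ = U * (mapD D P * U + P * mapD D U) - mapD D P * U * U := by ring
      _ = _ := by rw [h1]; ring
  have hDP0 : PowerSeries.constantCoeff (mapD D P) = 0 := by
    rw [← PowerSeries.coeff_zero_eq_constantCoeff_apply, coeff_mapD,
      PowerSeries.coeff_zero_eq_constantCoeff_apply, hP, D.map_one_eq_zero]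
  have hcomm : TT (mapD D P * U) = mapD D (TT P * U) := by
    rw [TT_mul, mapD_mul, TT_mapD, hTU, hDU]
    ring
  have hZ : mapD D (pw c) - c • (mapD D P * U * pw c) = 0 := by
    refine TT_unique (G c) _ (hG0 _) ?_ ?_
    · have e1 : PowerSeries.constantCoeff (mapD D (pw c)) = 0 := by
        rw [← PowerSeries.coeff_zero_eq_constantCoeff_apply, coeff_mapD,
          PowerSeries.coeff_zero_eq_constantCoeff_apply, hpw0, D.map_one_eq_zero]
      have e2 : PowerSeries.constantCoeff (c • (mapD D P * U * pw c)) = 0 := by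
        rw [← PowerSeries.coeff_zero_eq_constantCoeff_apply, PowerSeries.coeff_smul,
          PowerSeries.coeff_zero_eq_constantCoeff_apply, map_mul, map_mul, hDP0, zero_mul,
          zero_mul, smul_zero]
      rw [map_sub, e1, e2, sub_zero]
    · rw [TT_sub, TT_mapD, hpw, mapD_mul, TT_smul, TT_mul, hcomm, hpw, mul_sub]
      change mapD D (c • (TT P * U)) * pw c + G c * mapD D (pw c) - _ = _
      rw [mapD_smul, smul_mul_assoc, smul_add, mul_smul_comm]
      have e1 : mapD D P * U * (G c * pw c) = G c * (mapD D P * U * pw c) := by ring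
      rw [e1]
      ring
  have h1 := sub_eq_zero.1 hZ
  rw [h1]
  congr 1
  have h2 := hmul (c - 1)
  rw [sub_add_cancel] at h2
  rw [← h2]
  calc mapD D P * U * (P * pw (c - 1)) = (P * U) * (mapD D P * pw (c - 1)) := by ring
    _ = _ := by rw [hPU, one_mul]

/-! ### graded coefficients -/

/-- the coefficients of `Y` lie in the subspaces `R n` -/
def GrIn (R : ℕ → Submodule ℂ K) (Y : PowerSeries K) : Prop := ∀ n, PowerSeries.coeff n Y ∈ R n

variable {R : ℕ → Submodule ℂ K}

theorem GrIn.mul (hR : ∀ i j u v, u ∈ R i → v ∈ R j → u * v ∈ R (i + j)) {Y Z : PowerSeries K}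
    (hY : GrIn R Y) (hZ : GrIn R Z) : GrIn R (Y * Z) := by
  intro n
  rw [PowerSeries.coeff_mul]
  refine Submodule.sum_mem _ fun p hp => ?_
  rw [Finset.HasAntidiagonal.mem_antidiagonal] at hp
  rw [← hp]
  exact hR _ _ _ _ (hY _) (hZ _)

theorem GrIn.smul (c : ℂ) {Y : PowerSeries K} (hY : GrIn R Y) : GrIn R (c • Y) := by
  intro n
  rw [PowerSeries.coeff_smul]
  exact Submodule.smul_mem _ _ (hY n)

theorem natCast_mul_mem {S : Submodule ℂ K} (n : ℕ) {u : K} (hu : u ∈ S) : (n : K) * u ∈ S := by
  have h1 : (n : K) * u = (n : ℂ) • u := by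
    rw [Algebra.smul_def, map_natCast]
  rw [h1]
  exact S.smul_mem _ hu

theorem GrIn.TT {Y : PowerSeries K} (hY : GrIn R Y) : GrIn R (TT Y) := by
  intro n
  rw [coeff_TT]
  exact natCast_mul_mem n (hY n)

theorem GrIn.inv (hR : ∀ i j u v, u ∈ R i → v ∈ R j → u * v ∈ R (i + j)) (h1 : (1 : K) ∈ R 0)
    {P : PowerSeries K} (hP : PowerSeries.constantCoeff P = 1) (hY : GrIn R P) :
    GrIn R P⁻¹ := by
  have hP0 : PowerSeries.constantCoeff P ≠ 0 := by rw [hP]; exact one_ne_zero
  have hPU : P * P⁻¹ = 1 := PowerSeries.mul_inv_cancel P hP0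
  intro n
  induction n using Nat.strong_induction_on with
  | _ n ih =>
    have h2 := congrArg (PowerSeries.coeff n) hPU
    rcases n with _ | n
    · rw [PowerSeries.coeff_zero_eq_constantCoeff_apply, map_mul, hP, one_mul,
        PowerSeries.coeff_zero_eq_constantCoeff_apply, map_one] at h2
      rw [PowerSeries.coeff_zero_eq_constantCoeff_apply, h2]
      exact h1
    · rw [mul_comm, PowerSeries.coeff_mul, PowerSeries.coeff_one, if_neg (Nat.succ_ne_zero n),
        Finset.Nat.sum_antidiagonal_eq_sum_range_succ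
        (fun i j => PowerSeries.coeff i P⁻¹ * PowerSeries.coeff j P) (n + 1),
        Finset.sum_range_succ, Nat.sub_self, PowerSeries.coeff_zero_eq_constantCoeff_apply P, hP,
        mul_one] at h2
      rw [eq_neg_of_add_eq_zero_right h2]
      refine Submodule.neg_mem _ (Submodule.sum_mem _ fun j hj => ?_)
      rw [Finset.mem_range] at hj
      have h3 := hR j (n + 1 - j) _ _ (ih j hj) (hY (n + 1 - j))
      rwa [Nat.add_sub_cancel' hj.le] at h3

theorem GrIn.sol (hR : ∀ i j u v, u ∈ R i → v ∈ R j → u * v ∈ R (i + j)) (h1 : (1 : K) ∈ R 0)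
    {G : PowerSeries K} (hG : GrIn R G) : GrIn R (PowerSeries.mk (sol G)) := by
  intro n
  rw [PowerSeries.coeff_mk]
  induction n using Nat.strong_induction_on with
  | _ n ih =>
    rcases n with _ | n
    · rw [H34.sol]; exact h1
    · rw [H34.sol]
      have h2 : ∀ u : K, u ∈ R (n + 1) → u / ((n + 1 : ℕ) : K) ∈ R (n + 1) := by
        intro u hu
        have h3 : u / ((n + 1 : ℕ) : K) = (((n + 1 : ℕ) : ℂ)⁻¹) • u := by
          rw [Algebra.smul_def, map_inv₀, map_natCast, div_eq_mul_inv, mul_comm]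
        rw [h3]
        exact Submodule.smul_mem _ _ hu
      refine h2 _ (Submodule.sum_mem _ fun j _ => ?_)
      have h3 := hR j.1 (n + 1 - j.1) _ _ (ih j.1 j.2) (hG (n + 1 - j.1))
      rwa [Nat.add_sub_cancel' j.2.le] at h3

theorem GrIn.pwS (hR : ∀ i j u v, u ∈ R i → v ∈ R j → u * v ∈ R (i + j)) (h1 : (1 : K) ∈ R 0)
    {P : PowerSeries K} (hP : PowerSeries.constantCoeff P = 1) (hY : GrIn R P) (c : ℂ) :
    GrIn R (pwS P c) :=
  GrIn.sol hR h1 (GrIn.smul c (GrIn.mul hR hY.TT (GrIn.inv hR h1 hP hY)))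

end

/-- MODULE BPOW -/
theorem bpow : BpowStmt := fun K _ _ P hP => ⟨pwS P, bpow_spec P hP⟩

end Pool.Agent.Helper32_OMP.H34
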