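import Pool.Agent.Helper34_OMP.Bpow
import Pool.Agent.Helper32_OMP.BTools

/-!
# OMP, module LEADH, part 1: the chain
-/

set_option autoImplicit false

namespace Pool.Agent.Helper32_OMP.H34

open Finset MvPolynomial Pool.Agent.Helper6_Mono

/-! ### functions `ℤ → K` and power series -/

section ext

variable {K : Type} [Field K] [Algebra ℂ K]

/-- a power series as a function on `ℤ` -/
noncomputable def ext (Y : PowerSeries K) : ℤ → K :=
  fun e => if 0 ≤ e then PowerSeries.coeff e.toNat Y else 0

theorem ext_natCast (Y : PowerSeries K) (n : ℕ) : ext Y (n : ℤ) = PowerSeries.coeff n Y := by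
  unfold ext
  rw [if_pos (Int.natCast_nonneg n), Int.toNat_natCast]

theorem ext_neg (Y : PowerSeries K) {e : ℤ} (he : e < 0) : ext Y e = 0 := by
  unfold ext
  rw [if_neg (not_le.2 he)]

theorem ext_add (Y Z : PowerSeries K) (e : ℤ) : ext (Y + Z) e = ext Y e + ext Z e := by
  unfold ext
  split_ifs <;> simp

theorem ext_C_mul (a : K) (Y : PowerSeries K) (e : ℤ) :
    ext (PowerSeries.C a * Y) e = a * ext Y e := by
  unfold ext
  split_ifs <;> simp

theorem ext_smul (c : ℂ) (Y : PowerSeries K) (e : ℤ) : ext (c • Y) e = c • ext Y e := by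
  unfold ext
  split_ifs
  · rw [PowerSeries.coeff_smul]
  · simp

theorem ext_X_pow_mul (n : ℕ) (Y : PowerSeries K) (e : ℤ) :
    ext (PowerSeries.X ^ n * Y) e = ext Y (e - n) := by
  by_cases he : 0 ≤ e
  · obtain ⟨m, rfl⟩ := Int.eq_ofNat_of_zero_le he
    rw [ext_natCast, PowerSeries.coeff_X_pow_mul']
    split_ifs with h
    · rw [← Nat.cast_sub h, ext_natCast]
    · rw [ext_neg]; push_cast at h ⊢; omega
  · rw [ext_neg _ (not_le.1 he), ext_neg]; omega

theorem ext_mapD (D : Derivation ℂ K K) (Y : PowerSeries K) (e : ℤ) :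
    ext (mapD D Y) e = D (ext Y e) := by
  unfold ext
  split_ifs
  · rw [coeff_mapD]
  · rw [map_zero]

/-- the action of polynomials -/
noncomputable def pa (q : Polynomial K) (w : ℤ → K) : ℤ → K :=
  fun e => q.sum fun j a => a * w (e - j)

theorem pa_eq (q : Polynomial K) (w : ℤ → K) (e : ℤ) :
    pa q w e = q.sum fun j a => a * w (e - j) := rfl

theorem pa_add (q r : Polynomial K) (w : ℤ → K) (e : ℤ) :
    pa (q + r) w e = pa q w e + pa r w e := by
  rw [pa_eq, pa_eq, pa_eq, Polynomial.sum_add_index]
  · intro i; rw [zero_mul]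
  · intro i a b; rw [add_mul]

theorem pa_monomial (n : ℕ) (a : K) (w : ℤ → K) (e : ℤ) :
    pa (Polynomial.monomial n a) w e = a * w (e - n) := by
  rw [pa_eq, Polynomial.sum_monomial_index]
  rw [zero_mul]

theorem pa_add_right (q : Polynomial K) (w v : ℤ → K) (e : ℤ) :
    pa q (w + v) e = pa q w e + pa q v e := by
  simp only [pa_eq, Polynomial.sum_def, Pi.add_apply, mul_add, Finset.sum_add_distrib]

theorem pa_smul_right (q : Polynomial K) (c : ℂ) (w : ℤ → K) (e : ℤ) :
    pa q (c • w) e = c • pa q w e := by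
  simp only [pa_eq, Polynomial.sum_def, Pi.smul_apply, Finset.smul_sum, mul_smul_comm]

theorem pa_mul (q r : Polynomial K) (w : ℤ → K) : pa (q * r) w = pa q (pa r w) := by
  funext e
  induction q using Polynomial.induction_on' with
  | add p q hp hq => rw [add_mul, pa_add, pa_add, hp, hq]
  | monomial n a =>
    rw [pa_monomial]
    induction r using Polynomial.induction_on' with
    | add p q hp hq => rw [mul_add, pa_add, pa_add, hp, hq, mul_add]
    | monomial m b =>
      rw [Polynomial.monomial_mul_monomial, pa_monomial, pa_monomial, mul_assoc]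
      congr 3
      push_cast
      ring

/-- the algebra homomorphism -/
noncomputable def paH : Polynomial K →ₐ[ℂ] Module.End ℂ (ℤ → K) where
  toFun q :=
    { toFun := pa q
      map_add' := fun w v => funext fun e => pa_add_right q w v e
      map_smul' := fun c w => funext fun e => pa_smul_right q c w e }
  map_one' := by
    refine LinearMap.ext fun w => funext fun e => ?_
    change pa 1 w e = w e
    rw [← Polynomial.monomial_zero_one, pa_monomial]
    simp
  map_mul' q r := LinearMap.ext fun w => pa_mul q r w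
  map_zero' := by
    refine LinearMap.ext fun w => funext fun e => ?_
    change pa 0 w e = 0
    rw [pa_eq, Polynomial.sum_zero_index]
  map_add' q r := LinearMap.ext fun w => funext fun e => pa_add q r w e
  commutes' c := by
    refine LinearMap.ext fun w => funext fun e => ?_
    change pa (algebraMap ℂ (Polynomial K) c) w e = c • w e
    have h1 : algebraMap ℂ (Polynomial K) c = Polynomial.monomial 0 (algebraMap ℂ K c) := rfl
    rw [h1, pa_monomial, Algebra.smul_def]
    simp

theorem paH_apply (q : Polynomial K) (w : ℤ → K) : paH q w = pa q w := rfl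

theorem pa_ext (q : Polynomial K) (Y : PowerSeries K) (e : ℤ) :
    pa q (ext Y) e = ext ((q : PowerSeries K) * Y) e := by
  induction q using Polynomial.induction_on' with
  | add p q hp hq => rw [pa_add, hp, hq, Polynomial.coe_add, add_mul, ext_add]
  | monomial n a =>
    rw [pa_monomial]
    have h1 : ((Polynomial.monomial n a : Polynomial K) : PowerSeries K) =
        PowerSeries.C a * PowerSeries.X ^ n := by
      rw [← Polynomial.C_mul_X_pow_eq_monomial, Polynomial.coe_mul, Polynomial.coe_pow,
        Polynomial.coe_X, Polynomial.coe_C]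
    rw [h1, mul_assoc, ext_C_mul, ext_X_pow_mul]

theorem pa_shift (q : Polynomial K) (c : K) (m : ℤ) (w : ℤ → K) (e : ℤ) :
    pa q (fun e => c * w (e + m)) e = c * pa q w (e + m) := by
  simp only [pa_eq, Polynomial.sum_def, Finset.mul_sum]
  refine Finset.sum_congr rfl fun j _ => ?_
  have h1 : e - (j : ℤ) + m = e + m - j := by ring
  rw [h1]
  ring

end ext

/-! ### the substitution `y ↦ p + t y` -/

section subst

variable {σ : Type} {K : Type} [Field K] [Algebra ℂ K] [Algebra (MvPolynomial σ ℂ) K]
  [IsScalarTower ℂ (MvPolynomial σ ℂ) K]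

/-- `y ↦ t y` -/
noncomputable def tp0 (σ K : Type) [Field K] [Algebra ℂ K] [Algebra (MvPolynomial σ ℂ) K] :
    MvPolynomial σ ℂ →ₐ[ℂ] Polynomial K :=
  aeval fun l => Polynomial.C (algebraMap (MvPolynomial σ ℂ) K (X l)) * Polynomial.X

theorem tp0_X (l : σ) : tp0 σ K (X l) =
    Polynomial.C (algebraMap (MvPolynomial σ ℂ) K (X l)) * Polynomial.X := by
  unfold tp0; rw [aeval_X]

theorem algMap_C (c : ℂ) :
    algebraMap (MvPolynomial σ ℂ) K (C c) = algebraMap ℂ K c := by
  rw [IsScalarTower.algebraMap_apply ℂ (MvPolynomial σ ℂ) K]; rfl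

theorem tp0_monomial (s : σ →₀ ℕ) (c : ℂ) : tp0 σ K (monomial s c) =
    Polynomial.monomial s.degree (algebraMap (MvPolynomial σ ℂ) K (monomial s c)) := by
  classical
  unfold tp0
  rw [aeval_monomial]
  have h1 : (s.prod fun i k => (Polynomial.C (algebraMap (MvPolynomial σ ℂ) K (X i)) *
      Polynomial.X) ^ k) = Polynomial.C (algebraMap (MvPolynomial σ ℂ) K
        (s.prod fun i k => X i ^ k)) * Polynomial.X ^ s.degree := by
    have hdeg : s.degree = ∑ i ∈ s.support, s i := rfl
    rw [Finsupp.prod, Finsupp.prod, map_prod, map_prod, hdeg, ← Finset.prod_pow_eq_pow_sum,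
      ← Finset.prod_mul_distrib]
    refine Finset.prod_congr rfl fun i _ => ?_
    rw [mul_pow, map_pow, map_pow]
  rw [h1, monomial_eq, map_mul, algMap_C, ← Polynomial.C_mul_X_pow_eq_monomial,
    Polynomial.C_mul, mul_assoc]
  rfl

theorem coeff_tp0 (h : MvPolynomial σ ℂ) (j : ℕ) :
    (tp0 σ K h).coeff j = algebraMap (MvPolynomial σ ℂ) K (homogeneousComponent j h) := by
  induction h using MvPolynomial.induction_on' with
  | monomial s c =>
    rw [tp0_monomial, Polynomial.coeff_monomial,
      homogeneousComponent_of_mem (isHomogeneous_monomial c (rfl : s.degree = s.degree))]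
    split_ifs with h1 h2 h2
    · rfl
    · exact absurd h1.symm h2
    · exact absurd h2.symm h1
    · rw [map_zero]
  | add p q hp hq => rw [map_add, Polynomial.coeff_add, hp, hq, map_add, map_add]

/-- `y ↦ p + t y` -/
noncomputable def tp (K : Type) [Field K] [Algebra ℂ K] [Algebra (MvPolynomial σ ℂ) K]
    (p : σ → ℂ) : MvPolynomial σ ℂ →ₐ[ℂ] Polynomial K :=
  (tp0 σ K).comp (aeval fun l => X l + C (p l))

theorem tp_apply (p : σ → ℂ) (h : MvPolynomial σ ℂ) : tp K p h = tp0 σ K (tra p h) := rfl

theorem tp_X (p : σ → ℂ) (l : σ) : tp K p (X l) =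
    Polynomial.C (algebraMap (MvPolynomial σ ℂ) K (X l)) * Polynomial.X +
      Polynomial.C (algebraMap ℂ K (p l)) := by
  rw [tp_apply]
  unfold tra
  rw [aeval_X, map_add, tp0_X]
  congr 1
  have h1 : (C (p l) : MvPolynomial σ ℂ) = algebraMap ℂ _ (p l) := rfl
  rw [h1, AlgHom.commutes]
  rfl

theorem pa_tp_X (p : σ → ℂ) (l : σ) (w : ℤ → K) (e : ℤ) : pa (tp K p (X l)) w e =
    algebraMap ℂ K (p l) * w e + algebraMap (MvPolynomial σ ℂ) K (X l) * w (e - 1) := by
  rw [tp_X, pa_add]
  have h1 : Polynomial.C (algebraMap (MvPolynomial σ ℂ) K (X l)) * Polynomial.X =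
      Polynomial.monomial 1 (algebraMap (MvPolynomial σ ℂ) K (X l)) := by
    rw [← Polynomial.C_mul_X_pow_eq_monomial, pow_one]
  rw [h1, pa_monomial, ← Polynomial.monomial_zero_left, pa_monomial, add_comm]
  simp

variable [IsFractionRing (MvPolynomial σ ℂ) K]

/-- the partial derivatives of `K` as derivations -/
noncomputable def pD (K : Type) [Field K] [Algebra ℂ K] [Algebra (MvPolynomial σ ℂ) K]
    [IsScalarTower ℂ (MvPolynomial σ ℂ) K] [IsFractionRing (MvPolynomial σ ℂ) K] (i : σ) :
    Derivation ℂ K K :=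
  Derivation.mk' (pd K i) fun u v => by
    rw [pd_mul, smul_eq_mul, smul_eq_mul]; ring

theorem pD_algebraMap (i : σ) (h : MvPolynomial σ ℂ) :
    pD K i (algebraMap _ K h) = algebraMap _ K (pderiv i h) := pd_algebraMap i h

theorem coe_C_smul (c : ℂ) :
    ((Polynomial.C (algebraMap ℂ K c) : Polynomial K) : PowerSeries K) = c • 1 := by
  ext n
  rw [PowerSeries.coeff_smul, Polynomial.coeff_coe, Polynomial.coeff_C, PowerSeries.coeff_one]
  split_ifs
  · rw [Algebra.smul_def, mul_one]
  · simp

theorem mapD_add (D : Derivation ℂ K K) (Y Z : PowerSeries K) :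
    mapD D (Y + Z) = mapD D Y + mapD D Z := by
  ext n
  rw [map_add, coeff_mapD, coeff_mapD, coeff_mapD, map_add, map_add]

theorem mapD_C (D : Derivation ℂ K K) (a : K) :
    mapD D (PowerSeries.C a) = PowerSeries.C (D a) := by
  ext n
  rw [coeff_mapD, PowerSeries.coeff_C, PowerSeries.coeff_C]
  split_ifs
  · rfl
  · rw [map_zero]

theorem mapD_X (D : Derivation ℂ K K) : mapD D (PowerSeries.X : PowerSeries K) = 0 := by
  ext n
  rw [coeff_mapD, PowerSeries.coeff_X]
  split_ifs
  · simp
  · simp

/-- the derivative of the substitution -/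
theorem X_mul_tp (p : σ → ℂ) (i : σ) (h : MvPolynomial σ ℂ) :
    (PowerSeries.X : PowerSeries K) * (tp K p (pderiv i h) : PowerSeries K) =
      mapD (pD K i) (tp K p h : PowerSeries K) := by
  classical
  induction h using MvPolynomial.induction_on with
  | C c =>
    have h1 : tp K p (C c) = Polynomial.C (algebraMap ℂ K c) := by
      have h2 : (C c : MvPolynomial σ ℂ) = algebraMap ℂ _ c := rfl
      rw [h2, AlgHom.commutes]; rfl
    rw [pderiv_C, map_zero, h1, coe_C_smul, mapD_smul, mapD_one, smul_zero, Polynomial.coe_zero,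
      mul_zero]
  | add f g hf hg =>
    rw [map_add, map_add, map_add, Polynomial.coe_add, Polynomial.coe_add, mul_add, hf, hg,
      mapD_add]
  | mul_X f l hf =>
    have h1 : mapD (pD K i) ((tp K p (X l) : Polynomial K) : PowerSeries K) =
        PowerSeries.X * (tp K p (pderiv i (X l)) : PowerSeries K) := by
      rw [tp_X, Polynomial.coe_add, mapD_add, coe_C_smul, mapD_smul, mapD_one, smul_zero, add_zero,
        Polynomial.coe_mul, Polynomial.coe_C, Polynomial.coe_X, mapD_mul, mapD_C, mapD_X, mul_zero,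
        add_zero, pD_algebraMap, pderiv_X]
      by_cases hil : i = l
      · subst hil
        simp
      · rw [Pi.single_eq_of_ne (fun h => hil h.symm)]
        simp
    rw [pderiv_mul, map_add, map_mul, map_mul, map_mul, Polynomial.coe_add, Polynomial.coe_mul,
      Polynomial.coe_mul, Polynomial.coe_mul, mapD_mul, ← hf, h1]
    ring

end subst

end Pool.Agent.Helper32_OMP.H34
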