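import Pool.Agent.Helper34_OMP.LeadA

/-!
# OMP, module LEADH, part 2: homogeneous rational functions
-/

set_option autoImplicit false

namespace Pool.Agent.Helper32_OMP.H34

open Finset MvPolynomial Pool.Agent.Helper6_Mono

section grading

variable {σ : Type} {K : Type} [Field K] [Algebra ℂ K] [Algebra (MvPolynomial σ ℂ) K]
  [IsScalarTower ℂ (MvPolynomial σ ℂ) K] [IsFractionRing (MvPolynomial σ ℂ) K]
  {f0 : MvPolynomial σ ℂ} {d : ℕ}

/-- the derivative of a homogeneous polynomial, multiplied by a homogeneous polynomial of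
positive degree -/
theorem hom_pderiv_mul {H g : MvPolynomial σ ℂ} {m n : ℕ} (hH : H.IsHomogeneous m)
    (hg : g.IsHomogeneous n) (hn : 0 < n) (i : σ) :
    (pderiv i H * g).IsHomogeneous (m + n - 1) := by
  rcases m with _ | m
  · have h1 : H.totalDegree = 0 := by
      by_contra h0
      have h2 := hH.totalDegree (by rintro rfl; simp at h0)
      exact h0 h2
    rw [totalDegree_eq_zero_iff_eq_C] at h1
    rw [h1, pderiv_C, zero_mul]
    exact isHomogeneous_zero _ _ _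
  · have h1 := (hH.pderiv (i := i)).mul hg
    have h2 : m + 1 - 1 + n = m + 1 + n - 1 := by omega
    rwa [h2] at h1

variable (K) in
/-- the rational functions `H / f0 ^ N`, homogeneous of degree `e` -/
noncomputable def RR (hf0 : f0.IsHomogeneous d) (hd : 0 < d) (e : ℤ) : Submodule ℂ K where
  carrier := {u | ∃ (N m : ℕ) (H : MvPolynomial σ ℂ), H.IsHomogeneous m ∧
    (m : ℤ) = e + d * N ∧ algebraMap _ K H = u * (algebraMap _ K f0) ^ N}
  zero_mem' := by
    refine ⟨e.natAbs, (e + d * e.natAbs).toNat, 0, isHomogeneous_zero _ _ _, ?_, by simp⟩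
    rw [Int.toNat_of_nonneg]
    have h1 : (e.natAbs : ℤ) ≤ d * e.natAbs := by
      have : (1 : ℤ) ≤ d := by exact_mod_cast hd
      nlinarith [Int.natCast_nonneg e.natAbs]
    omega
  add_mem' := by
    rintro u v ⟨N, m, H, hH, hm, hu⟩ ⟨N', m', H', hH', hm', hv⟩
    refine ⟨N + N', m + d * N', H * f0 ^ N' + H' * f0 ^ N, ?_, ?_, ?_⟩
    · refine (hH.mul (hf0.pow N')).add ?_
      have h1 := hH'.mul (hf0.pow N)
      have h2 : m' + d * N = m + d * N' := by zify; rw [hm, hm']; ring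
      rwa [h2] at h1
    · push_cast; rw [hm]; ring
    · rw [map_add, map_mul, map_mul, map_pow, map_pow, hu, hv]; ring
  smul_mem' := by
    rintro c u ⟨N, m, H, hH, hm, hu⟩
    refine ⟨N, m, C c * H, hH.C_mul c, hm, ?_⟩
    rw [map_mul, hu, algMap_C, Algebra.smul_def, mul_assoc]

variable (hf0 : f0.IsHomogeneous d) (hd : 0 < d)

theorem mem_RR {e : ℤ} {u : K} : u ∈ RR K hf0 hd e ↔ ∃ (N m : ℕ) (H : MvPolynomial σ ℂ),
    H.IsHomogeneous m ∧ (m : ℤ) = e + d * N ∧ algebraMap _ K H = u * (algebraMap _ K f0) ^ N :=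
  Iff.rfl

theorem RR_mul {e e' : ℤ} {u v : K} (hu : u ∈ RR K hf0 hd e) (hv : v ∈ RR K hf0 hd e') :
    u * v ∈ RR K hf0 hd (e + e') := by
  obtain ⟨N, m, H, hH, hm, hu⟩ := hu
  obtain ⟨N', m', H', hH', hm', hv⟩ := hv
  refine ⟨N + N', m + m', H * H', hH.mul hH', ?_, ?_⟩
  · push_cast; rw [hm, hm']; ring
  · rw [map_mul, hu, hv]; ring

theorem RR_hom {h : MvPolynomial σ ℂ} {j : ℕ} (hh : h.IsHomogeneous j) :
    algebraMap _ K h ∈ RR K hf0 hd (j : ℤ) :=
  ⟨0, j, h, hh, by simp, by simp⟩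

theorem RR_one : (1 : K) ∈ RR K hf0 hd 0 :=
  ⟨0, 0, 1, isHomogeneous_one _ _, by simp, by simp⟩

theorem RR_inv (hne : algebraMap _ K f0 ≠ 0) :
    (algebraMap _ K f0)⁻¹ ∈ RR K hf0 hd (-(d : ℤ)) :=
  ⟨1, 0, 1, isHomogeneous_one _ _, by simp, by rw [map_one, pow_one, inv_mul_cancel₀ hne]⟩

theorem RR_pD {e : ℤ} {u : K} (hu : u ∈ RR K hf0 hd e) (i : σ) :
    pD K i u ∈ RR K hf0 hd (e - 1) := by
  obtain ⟨N, m, H, hH, hm, hu⟩ := hu
  refine ⟨N + 1, m + d - 1, pderiv i H * f0 - C (N : ℂ) * (pderiv i f0 * H), ?_, ?_, ?_⟩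
  · refine (hom_pderiv_mul hH hf0 hd i).sub ?_
    by_cases hm0 : m = 0
    · -- `H` is a constant
      subst hm0
      have h1 : (pderiv i f0).IsHomogeneous (d - 1) := hf0.pderiv
      have h2 := (h1.mul hH).C_mul (N : ℂ)
      have h3 : d - 1 + 0 = 0 + d - 1 := by omega
      rwa [h3] at h2
    · have h2 := (hom_pderiv_mul hf0 hH (Nat.pos_of_ne_zero hm0) i).C_mul (N : ℂ)
      have h3 : d + m - 1 = m + d - 1 := by omega
      rwa [h3] at h2
  · have h1 : ((m + d - 1 : ℕ) : ℤ) = (m : ℤ) + d - 1 := by omega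
    rw [h1, hm]; push_cast; ring
  · have h1 := congrArg (pD K i) hu
    rw [pD_algebraMap, Derivation.leibniz, smul_eq_mul, smul_eq_mul] at h1
    have h2 : algebraMap _ K f0 * pD K i (algebraMap _ K f0 ^ N) =
        (N : K) * algebraMap _ K f0 ^ N * algebraMap _ K (pderiv i f0) := by
      rw [Derivation.leibniz_pow, pD_algebraMap, nsmul_eq_mul, smul_eq_mul]
      rcases N with _ | N
      · simp
      · rw [Nat.add_sub_cancel]; push_cast; ring
    have h3 : algebraMap (MvPolynomial σ ℂ) K (C (N : ℂ)) = (N : K) := by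
      rw [algMap_C, map_natCast]
    rw [map_sub, map_mul, map_mul, map_mul, h3, h1, hu]
    linear_combination u * h2

/-- the twisted derivations -/
noncomputable def DD (K : Type) [Field K] [Algebra ℂ K] [Algebra (MvPolynomial σ ℂ) K]
    [IsScalarTower ℂ (MvPolynomial σ ℂ) K] [IsFractionRing (MvPolynomial σ ℂ) K]
    (f0 : MvPolynomial σ ℂ) (β : ℂ) (i : σ) : K →ₗ[ℂ] K :=
  (pD K i : K →ₗ[ℂ] K) +
    β • LinearMap.mulLeft ℂ (algebraMap _ K (pderiv i f0) / algebraMap _ K f0)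

theorem DD_apply (β : ℂ) (i : σ) (u : K) : DD K f0 β i u =
    pD K i u + β • (algebraMap _ K (pderiv i f0) / algebraMap _ K f0 * u) := rfl

theorem DD_mul (β : ℂ) (i : σ) (u v : K) :
    DD K f0 β i (u * v) = pD K i u * v + u * DD K f0 β i v := by
  rw [DD_apply, DD_apply, Derivation.leibniz, smul_eq_mul, smul_eq_mul, mul_add]
  simp only [Algebra.smul_def]
  ring

theorem RR_DD (hne : algebraMap _ K f0 ≠ 0) (β : ℂ) {e : ℤ} {u : K} (hu : u ∈ RR K hf0 hd e)
    (i : σ) : DD K f0 β i u ∈ RR K hf0 hd (e - 1) := by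
  rw [DD_apply]
  refine Submodule.add_mem _ (RR_pD hf0 hd hu i) (Submodule.smul_mem _ _ ?_)
  have h1 : algebraMap _ K (pderiv i f0) ∈ RR K hf0 hd ((d : ℤ) - 1) := by
    have := RR_pD hf0 hd (RR_hom (K := K) hf0 hd hf0) i
    rwa [pD_algebraMap] at this
  have h2 := RR_mul hf0 hd (RR_mul hf0 hd h1 (RR_inv hf0 hd hne)) hu
  rw [← div_eq_mul_inv] at h2
  have h3 : (d : ℤ) - 1 + -d + e = e - 1 := by ring
  rwa [h3] at h2

variable [Fintype σ]

/-- sums of derivatives of elements of `S` -/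
noncomputable def sumD (f0 : MvPolynomial σ ℂ) (β : ℂ) (S : Submodule ℂ K) : Submodule ℂ K where
  carrier := {u | ∃ h : σ → K, (∀ l, h l ∈ S) ∧ u = ∑ l, DD K f0 β l (h l)}
  zero_mem' := ⟨0, fun l => S.zero_mem, by simp⟩
  add_mem' := by
    rintro u v ⟨h, hh, rfl⟩ ⟨h', hh', rfl⟩
    refine ⟨fun l => h l + h' l, fun l => S.add_mem (hh l) (hh' l), ?_⟩
    simp only [map_add, Finset.sum_add_distrib]
  smul_mem' := by
    rintro c u ⟨h, hh, rfl⟩
    refine ⟨fun l => c • h l, fun l => S.smul_mem c (hh l), ?_⟩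
    simp only [map_smul, Finset.smul_sum]

theorem DD_mem_sumD (β : ℂ) {S : Submodule ℂ K} {u : K} (hu : u ∈ S) (i : σ) :
    DD K f0 β i u ∈ sumD f0 β S := by
  classical
  refine ⟨Pi.single i u, fun l => ?_, ?_⟩
  · by_cases hl : l = i
    · subst hl; rwa [Pi.single_eq_same]
    · rw [Pi.single_eq_of_ne hl]; exact S.zero_mem
  · rw [Finset.sum_eq_single i]
    · rw [Pi.single_eq_same]
    · intro l _ hl
      rw [Pi.single_eq_of_ne hl, map_zero]
    · intro h; exact absurd (Finset.mem_univ i) h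

/-- sums of derivatives of order `n` of elements of degree one -/
noncomputable def QQ (K : Type) [Field K] [Algebra ℂ K] [Algebra (MvPolynomial σ ℂ) K]
    [IsScalarTower ℂ (MvPolynomial σ ℂ) K] [IsFractionRing (MvPolynomial σ ℂ) K]
    (hf0 : f0.IsHomogeneous d) (hd : 0 < d) (β : ℂ) : ℕ → Submodule ℂ K
  | 0 => RR K hf0 hd 1
  | (n + 1) => sumD f0 β (QQ K hf0 hd β n)

theorem QQ_le (hne : algebraMap _ K f0 ≠ 0) (β : ℂ) (n : ℕ) :
    QQ K hf0 hd β n ≤ RR K hf0 hd (1 - n) := by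
  induction n with
  | zero => simp [QQ]
  | succ n ih =>
    rintro u ⟨h, hh, rfl⟩
    refine Submodule.sum_mem _ fun l _ => ?_
    have h1 := RR_DD hf0 hd hne β (ih (hh l)) l
    have h2 : (1 : ℤ) - n - 1 = 1 - ((n + 1 : ℕ) : ℤ) := by push_cast; ring
    rwa [h2] at h1

theorem X_mul_QQ (hne : algebraMap _ K f0 ≠ 0) (β : ℂ) (i : σ) (n : ℕ) {u : K}
    (hu : u ∈ QQ K hf0 hd β (n + 1)) :
    algebraMap (MvPolynomial σ ℂ) K (X i) * u ∈ QQ K hf0 hd β n := by
  classical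
  induction n generalizing u with
  | zero =>
    have h1 := QQ_le hf0 hd hne β 1 hu
    have h2 := RR_mul hf0 hd (RR_hom (K := K) hf0 hd (isHomogeneous_X ℂ i)) h1
    simpa [QQ] using h2
  | succ n ih =>
    obtain ⟨h, hh, rfl⟩ := hu
    rw [Finset.mul_sum]
    refine Submodule.sum_mem _ fun l _ => ?_
    have h1 : algebraMap (MvPolynomial σ ℂ) K (X i) * DD K f0 β l (h l) =
        DD K f0 β l (algebraMap (MvPolynomial σ ℂ) K (X i) * h l) - pD K l (algebraMap (MvPolynomial σ ℂ) K (X i)) * h l := by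
      rw [DD_mul]; ring
    rw [h1, pD_algebraMap, pderiv_X]
    refine Submodule.sub_mem _ ?_ ?_
    · exact DD_mem_sumD β (ih (hh l)) l
    · by_cases hl : l = i
      · subst hl
        rw [Pi.single_eq_same, map_one, one_mul]
        exact hh l
      · rw [Pi.single_eq_of_ne (fun h => hl h.symm), map_zero, zero_mul]
        exact Submodule.zero_mem _

/-- the subspaces `Q_e` -/
noncomputable def Qe (K : Type) [Field K] [Algebra ℂ K] [Algebra (MvPolynomial σ ℂ) K]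
    [IsScalarTower ℂ (MvPolynomial σ ℂ) K] [IsFractionRing (MvPolynomial σ ℂ) K]
    (hf0 : f0.IsHomogeneous d) (hd : 0 < d) (β : ℂ) (e : ℤ) : Submodule ℂ K :=
  if 1 ≤ e then RR K hf0 hd e else QQ K hf0 hd β (1 - e).toNat

theorem Qe_ge (β : ℂ) {e : ℤ} (he : 1 ≤ e) : Qe K hf0 hd β e = RR K hf0 hd e := if_pos he

theorem Qe_le (β : ℂ) (n : ℕ) : Qe K hf0 hd β (1 - n) = QQ K hf0 hd β n := by
  unfold Qe
  rcases n with _ | n
  · rw [if_pos (by simp)]
    simp [QQ]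
  · rw [if_neg (by push_cast; omega)]
    congr 1
    push_cast
    omega

theorem Qe_DD (hne : algebraMap _ K f0 ≠ 0) (β : ℂ) {e : ℤ} {u : K}
    (hu : u ∈ Qe K hf0 hd β (e + 1)) (i : σ) : DD K f0 β i u ∈ Qe K hf0 hd β e := by
  by_cases he : 1 ≤ e
  · rw [Qe_ge hf0 hd β he]
    rw [Qe_ge hf0 hd β (by omega)] at hu
    have := RR_DD hf0 hd hne β hu i
    rwa [add_sub_cancel_right] at this
  · obtain ⟨n, hn⟩ : ∃ n : ℕ, e = 1 - ((n + 1 : ℕ) : ℤ) := ⟨(-e).toNat, by push_cast; omega⟩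
    subst hn
    have h1 : (1 : ℤ) - ((n + 1 : ℕ) : ℤ) + 1 = 1 - n := by push_cast; ring
    rw [h1, Qe_le] at hu
    rw [Qe_le]
    exact DD_mem_sumD β hu i

theorem Qe_X (hne : algebraMap _ K f0 ≠ 0) (β : ℂ) {e : ℤ} {u : K}
    (hu : u ∈ Qe K hf0 hd β (e - 1)) (i : σ) :
    algebraMap (MvPolynomial σ ℂ) K (X i) * u ∈ Qe K hf0 hd β e := by
  by_cases he : 2 ≤ e
  · rw [Qe_ge hf0 hd β (by omega)] at hu ⊢
    have h2 := RR_mul hf0 hd (RR_hom (K := K) hf0 hd (isHomogeneous_X ℂ i)) hu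
    have h3 : ((1 : ℕ) : ℤ) + (e - 1) = e := by push_cast; ring
    rwa [h3] at h2
  · obtain ⟨n, hn⟩ : ∃ n : ℕ, e = 1 - (n : ℤ) := ⟨(1 - e).toNat, by omega⟩
    subst hn
    have h1 : (1 : ℤ) - (n : ℤ) - 1 = 1 - ((n + 1 : ℕ) : ℤ) := by push_cast; ring
    rw [h1, Qe_le] at hu
    rw [Qe_le]
    exact X_mul_QQ hf0 hd hne β i n hu

end grading

end Pool.Agent.Helper32_OMP.H34
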